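import Mathlib
import Pool.Agent.helper391_PT.Main2

set_option autoImplicit false

/-!
# Every pattern occurs in the expansions of integers in the middle of record gaps

A pattern is a word over the digits in base `b`, a distinguished variable `U`, its complement and any further
variables, for instance `U U U`, `U Ū` or `1 V U V Ū Ū 0 W U`. If words of length `k` are substituted for the
variables, then a pattern becomes the expansion of an integer. Let `f(x) = log x (log₂ x)² log₄ x / (log₃ x)²`
(iterated natural logarithms), the order of the largest gaps between consecutive primes known from the starting
files (`MP_3bc45c_nt.RecordGaps`). We show that for every pattern which contains `U` or its complement and for all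
`η, ε > 0` there is `κ > 0` such that for all large `K`, for all but at most `η K` of the lengths `K ≤ k < 2 K` and
ALL words of length `k` for the further variables there is a word of length `k` for `U`, whose most significant
`(1 - ε) k` letters can be prescribed arbitrarily, such that no prime is within `κ f(b^N)` of the resulting
integer, where `N` is the number of its digits.

So there are gaps between primes of record size around integers whose expansions are powers `u u … u`, or of the
form `u ū`, or `1 u 1 u` (a square without leading zeros), and so on, for at least `b^((1 - ε) k - 1)` words `u` of
length `k`.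

Proof. The integers that arise when only the last `ε k` letters of `U` vary form an arithmetic progression of
length `b^(ε k)` and of difference `|P(b^k)|`, where the polynomial `P` depends only on the pattern and is not zero
modulo any prime not dividing `b`. A prime `p` not dividing `b` divides `P(b^k)` for at most `deg P (K / ord_p(b) + 1)` of the
`k` in `[K, 2K)`, and `∑ 1 / (p ord_p(b))`, summed over the primes above `T`, is `≪ T^(-1/8)`. So on average over `k`
the difference has few small prime factors, and the record sieve of the starting files in progressions
with large differences (`MP_3bc45c_nt.RecordGapsAtPrescribedPlaces`) applies.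
-/

namespace Pool.Agent.Results.MP_f9960f_nt.PatternsInRecordGaps

open Pool.Agent.helper391_PT

/-- The record scale `f(x) = log x (log₂ x)² log₄ x / (log₃ x)²` (iterated natural logarithms). -/
noncomputable def f (x : ℝ) : ℝ :=
  Real.log x * (Real.log (Real.log x)) ^ 2 * Real.log (Real.log (Real.log (Real.log x))) /
    (Real.log (Real.log (Real.log x))) ^ 2

/-- For a pattern `w` in base `b` that contains the distinguished variable or its complement and for `η > 0` and
`0 < ε ≤ 1` there are `κ > 0` and `K₀` such that for all `K ≥ K₀`, for all but at most `η K` of the lengths `k` in
`[K, 2K)`, all words `v j` of length `k` for the further variables and every word `a` of length at most `(1 - ε) k`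
there is a word `u` of length `k` with the most significant letters `a` such that every prime `p` satisfies
`|p - n| > κ f(b^N)`, where `n` is the integer with the digits given by the pattern `w` with the substitution of
`u` and `v`, and `N` is the number of these digits. -/
theorem result (b : ℕ) (hb : 2 ≤ b) (w : List (Sym b)) (hw : Sym.var ∈ w ∨ Sym.comp ∈ w)
    (η : ℝ) (hη : 0 < η) (ε : ℝ) (hε : 0 < ε) (hε1 : ε ≤ 1) :
    ∃ κ : ℝ, 0 < κ ∧ ∃ K₀ : ℕ, ∀ K : ℕ, K₀ ≤ K → ∃ G : Finset ℕ, G ⊆ Finset.Ico K (2 * K) ∧
      (1 - η) * K ≤ G.card ∧ ∀ k ∈ G, ∀ v : ℕ → List (Fin b), (∀ j, (v j).length = k) →
        ∀ a : List (Fin b), (a.length : ℝ) ≤ (1 - ε) * k →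
        ∃ u : List (Fin b), u.length = k ∧ a <:+ u ∧ ∀ p : ℕ, p.Prime →
          κ * f ((b : ℝ) ^ (subst u v w).length) < |(p : ℝ) - value (subst u v w)| :=
  main2 hb w hw η hη ε hε hε1

end Pool.Agent.Results.MP_f9960f_nt.PatternsInRecordGaps
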