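import Mathlib
import Pool.Agent.H260.PA.Main

/-!
# Record prime gaps around the components of polynomial automorphisms

Let `f(Z) = log Z (log₂ Z)² log₄ Z / (log₃ Z)²` (iterated natural logarithms), the order of the prime gaps of
the starting file `MP_3bc45c_nt.RecordGaps`, the largest order proved so far; it exceeds the published record
`log Z log₂ Z log₄ Z / log₃ Z` of Ford, Green, Konyagin, Maynard and Tao by the factor `log₂ Z / log₃ Z`.

Call a polynomial with integer coefficients in `x_1, …, x_d` a *component* if it is the image of a variable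
under some automorphism of the algebra `ℚ[x_1, …, x_d]`.  Examples are all polynomials `a x_i + P`, `a ≠ 0`,
where `x_i` does not occur in `P`, all components of the iterates of Hénon maps `(x, y) ↦ (y, P(y) - x)`, and
of all compositions of such maps and of triangular maps.

Let `g_1, …, g_m` be components none of which is of the form `a g_j + b` with rational `a, b` and
`a ≠ ± 1`.  Then every box of side `Z`, `Z` large, contains an integer point `x` such that no prime larger than
`Z ^ (1/10)` lies within `c f(Z)` of any of the numbers `g_1(x), …, g_m(x)`: all the integers there have a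
prime factor `p ≤ Z ^ (1/10)`.  The condition holds in particular for all the components of any finite set of
automorphisms of `ℤ[x_1, …, x_d]` (theorem `automorphisms`).  So for every `L` each large box contains a
starting point such that all the coordinates of the first `L` points of its orbit under such an automorphism
lie in the middle of prime gaps of this record order.

Method.  An automorphism over `ℚ` has coefficients prime to `p` for every large `p` and induces a bijection of
the points modulo `p`; hence a component takes every value modulo `p` exactly `p ^ (d-1)` times.  Modulo `p` the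
polynomials `g_i - r`, `g_j - s` are prime elements of the polynomial ring; if one of them divides the other
then `g_j` is an affine function of `g_i` modulo `p`, which is impossible for large `p`.  So in the coordinates in
which `g_i` is a variable, `g_j - s` does not vanish identically on the hyperplane `g_i = r`, and it has
`O(p ^ (d-2))` zeros there (Schwartz and Zippel).  These are the hypotheses of the general criterion
`Pool.Agent.Y837.SV.crit3` of the starting library (helper837).  Components which differ by a sign and a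
constant are treated together.
-/

set_option autoImplicit false

open MvPolynomial

namespace Pool.Agent.Results.MP_f9960f_nt.PolynomialAutomorphisms

/-- The record scale `f(Z) = log Z (log₂ Z)² log₄ Z / (log₃ Z)²` (iterated natural logarithms). -/
noncomputable def f (Z : ℝ) : ℝ :=
  Real.log Z * (Real.log (Real.log Z)) ^ 2 * Real.log (Real.log (Real.log (Real.log Z))) /
    (Real.log (Real.log (Real.log Z))) ^ 2

/-- `g` is a component of a polynomial automorphism: over `ℚ` it is the image of a variable under an
automorphism of the polynomial algebra. -/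
def IsComponent {d : ℕ} (g : MvPolynomial (Fin d) ℤ) : Prop :=
  ∃ (e : MvPolynomial (Fin d) ℚ ≃ₐ[ℚ] MvPolynomial (Fin d) ℚ) (i : Fin d),
    e (X i) = map (algebraMap ℤ ℚ) g

/-- **Record prime gaps around the components of polynomial automorphisms.**  Let `g_1, …, g_m` be components
of polynomial automorphisms such that `a g_i = b g_j + c` with integers `a ≠ 0`, `b`, `c` is possible only for
`|b| = |a|`.  There is `c > 0` such that for all large `Z` every box with sides `(M_i, M_i + Z]` contains an
integer point `x` such that every integer `n` at distance at most `c f(Z)` from one of the numbers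
`g_1(x), …, g_m(x)` has a prime factor `p ≤ Z ^ (1/10)`. -/
theorem result {m d : ℕ} (g : Fin m → MvPolynomial (Fin d) ℤ) (hg : ∀ j, IsComponent (g j))
    (hne : ∀ i j, ∀ a b c : ℤ, a ≠ 0 → C a * g i = C b * g j + C c → |b| = |a|) :
    ∃ c : ℝ, 0 < c ∧ ∃ Z₀ : ℝ, ∀ Z : ℕ, Z₀ ≤ Z → ∀ M : Fin d → ℤ, ∃ x : Fin d → ℤ,
      (∀ i, M i < x i ∧ x i ≤ M i + Z) ∧
        ∀ j, ∀ n : ℤ, |(n : ℝ) - eval x (g j)| ≤ c * f Z →
          ∃ p : ℕ, p.Prime ∧ (p : ℝ) ≤ (Z : ℝ) ^ (1 / 10 : ℝ) ∧ (p : ℤ) ∣ n :=
  Pool.Agent.H260.PA.main g hg hne

/-- The components of automorphisms over `ℤ` satisfy both conditions: **record prime gaps around all the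
components of finitely many automorphisms of `ℤ[x_1, …, x_d]`.** -/
theorem automorphisms {m d : ℕ} (Φ : Fin m → (MvPolynomial (Fin d) ℤ ≃ₐ[ℤ] MvPolynomial (Fin d) ℤ)) :
    ∃ c : ℝ, 0 < c ∧ ∃ Z₀ : ℝ, ∀ Z : ℕ, Z₀ ≤ Z → ∀ M : Fin d → ℤ, ∃ x : Fin d → ℤ,
      (∀ i, M i < x i ∧ x i ≤ M i + Z) ∧
        ∀ j i, ∀ n : ℤ, |(n : ℝ) - eval x (Φ j (X i))| ≤ c * f Z →
          ∃ p : ℕ, p.Prime ∧ (p : ℝ) ≤ (Z : ℝ) ^ (1 / 10 : ℝ) ∧ (p : ℤ) ∣ n := by
  have key : ∀ (Φ Ψ : MvPolynomial (Fin d) ℤ ≃ₐ[ℤ] MvPolynomial (Fin d) ℤ) (i l : Fin d) (a b c : ℤ),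
      C a * Φ (X i) = C b * Ψ (X l) + C c → b ∣ a := by
    intro Φ Ψ i l a b c h
    have h1 := congrArg Φ.symm h
    rw [map_add, map_mul, map_mul, AlgEquiv.symm_apply_apply] at h1
    have c1 : ∀ a : ℤ, Φ.symm (C a) = C a := fun a => Φ.symm.commutes a
    rw [c1, c1, c1] at h1
    have h2 := congrArg (coeff (Finsupp.single i 1)) h1
    rw [coeff_add, coeff_C_mul, coeff_C_mul, coeff_C, coeff_X, if_pos rfl,
      if_neg (Ne.symm (Pool.Agent.H260.PA.single_ne i)), mul_one, add_zero] at h2
    exact ⟨_, h2⟩
  obtain ⟨c, hc, Z₀, h⟩ := result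
    (fun k : Fin (m * d) => Φ (finProdFinEquiv.symm k).1 (X (finProdFinEquiv.symm k).2))
    (fun k => ⟨Pool.Agent.H260.PA.redE (algebraMap ℤ ℚ) (Φ (finProdFinEquiv.symm k).1), _,
      Pool.Agent.H260.PA.redE_X _ _ _⟩)
    (by
      intro k l a b c ha h
      have h1 : b ∣ a := key _ _ _ _ a b c h
      have h2 : a ∣ b := key _ _ _ _ b a (-c) (by rw [h, C_neg]; ring)
      have h3 : b.natAbs = a.natAbs :=
        Nat.dvd_antisymm (Int.natAbs_dvd_natAbs.2 h1) (Int.natAbs_dvd_natAbs.2 h2)
      rw [Int.abs_eq_natAbs, Int.abs_eq_natAbs, h3])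
  refine ⟨c, hc, Z₀, fun Z hZ M => ?_⟩
  obtain ⟨x, hx1, hx2⟩ := h Z hZ M
  refine ⟨x, hx1, fun j i n hn => hx2 (finProdFinEquiv (j, i)) n ?_⟩
  rw [Equiv.symm_apply_apply]
  exact hn

end Pool.Agent.Results.MP_f9960f_nt.PolynomialAutomorphisms
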