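import Pool.Agent.Helper123.SM.Main2

set_option autoImplicit false

/-!
# Record prime gaps around the multiples of `n` by ALL elements of an arbitrary finite set

Let `f(x) = log x (log₂ x)² log₄ x / (log₃ x)²`, the size of the largest prime gaps that are known to occur up to
`x`, and `g(x) = log x log₂ x log₄ x / log₃ x`, the published size. The theorem finds, in every interval of length `X`, an
integer `n` such that for all `α` in an ARBITRARY finite set `𝒜` of positive integers `α ≤ exp ((log X)^(D+1))` no prime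
lies within `K(α)` of the multiple `α n`, if

`∑_(α ∈ 𝒜) K(α) λ(α) ≤ c f(X)` and all `K(α) ≥ log X`;

here `λ(α)` is the product of `(1 - 1/p)⁻¹` over the prime factors `p` of `α` with `(log log X)³ < p ≤ log X`. It is at most
`α / φ(α)`, and bounded by an absolute constant if `α` has at most `(log log X)³` different prime factors. At the same time
no prime lies within `H(w)` of the values `w = α n + β` of an ARBITRARY finite set `𝓦` of linear forms, and the values of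
another arbitrary finite set `𝓛` of linear forms are not prime, if `∑ H(w) + ∑_𝓛 α / φ(α) ≤ c g(X)`, `H(w) ≥ √(log X)`.
All these sets and lengths may depend on `X`.

The case of one `α` with `α / φ(α)` in place of `λ(α)`, without `𝓦` and `𝓛`, is the starting file
`MP_028722_nt.MultiplesOfEveryInteger` (team of helper361), the case `𝒜 = {1, …, J}` is the starting file
`MP_028722_nt.SimultaneousGaps` (helper341). New here: the medium primes are given to all multiples at once (the class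
`0` modulo `p`), the small primes by a weighted average over the forms, in which `α n + a` has the weight `∏ (1 - 1/p)`
over the small primes not dividing `α`, and the large primes by the covering theorem
`Pool.Agent.H361R2.PA.coveringD` applied to the REDUCED forms (proportional forms `α n + a` are treated together). The
small prime factors of `α` cost nothing, since `α n + j` is composite if `j` has a common factor with `α`.
-/

namespace Pool.Agent.Results.MP_f9960f_nt.SimultaneousMultiples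

/-- The record scale `f(x) = log x (log₂ x)² log₄ x / (log₃ x)²` (iterated natural logarithms). -/
noncomputable def f (x : ℝ) : ℝ :=
  Real.log x * (Real.log (Real.log x)) ^ 2 * Real.log (Real.log (Real.log (Real.log x))) /
    (Real.log (Real.log (Real.log x))) ^ 2

/-- The published record scale `g(x) = log x log₂ x log₄ x / log₃ x`. -/
noncomputable def g (x : ℝ) : ℝ :=
  Real.log x * Real.log (Real.log x) * Real.log (Real.log (Real.log (Real.log x))) /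
    Real.log (Real.log (Real.log x))

/-- The factor `λ(α)`: the product of `(1 - 1/p)⁻¹` over the primes `p` dividing `α` with
`(log log X)³ < p ≤ log X`. -/
noncomputable def lam (X : ℝ) (α : ℕ) : ℝ :=
  ∏ p ∈ α.primeFactors.filter (fun p : ℕ => (Real.log (Real.log X)) ^ 3 < p ∧ (p : ℝ) ≤ Real.log X),
    (1 - 1 / (p : ℝ))⁻¹

/-- For every `D` there are `c > 0` and `X₀` such that for all `X ≥ X₀`, with `E = exp ((log X)^(D+1))`: let `𝒜` be a
finite set of integers `1 ≤ α ≤ E` and let `K(α) ≥ log X`, `α ∈ 𝒜`, with `∑_𝒜 K(α) λ(α) ≤ c f(X)`; let `𝓦`, `𝓛` be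
finite sets of forms `α n + β`, `1 ≤ α ≤ E`, `|β| ≤ E`, and let `H(w) ≥ √(log X)`, `w ∈ 𝓦`, with
`∑_𝓦 H(w) + ∑_𝓛 α/φ(α) ≤ c g(X)`. Every interval `(z + X/4, z + X]` contains an integer `n` such that no `α n + j`,
`α ∈ 𝒜`, `|j| ≤ K(α)`, no `α n + β + j`, `(α, β) ∈ 𝓦`, `|j| ≤ H(α, β)`, and no `α n + β`, `(α, β) ∈ 𝓛`, is a prime or
minus a prime. -/
theorem result (D : ℕ) : ∃ c : ℝ, 0 < c ∧ ∃ X₀ : ℝ, ∀ X : ℝ, X₀ ≤ X →
    ∀ (𝒜 : Finset ℕ) (K : ℕ → ℝ),
    (∀ α ∈ 𝒜, 1 ≤ α ∧ (α : ℝ) ≤ Real.exp ((Real.log X) ^ (D + 1)) ∧ Real.log X ≤ K α) →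
    ∑ α ∈ 𝒜, K α * lam X α ≤ c * f X →
    ∀ (𝓦 : Finset (ℕ × ℤ)) (H : ℕ × ℤ → ℝ),
    (∀ w ∈ 𝓦, 1 ≤ w.1 ∧ (w.1 : ℝ) ≤ Real.exp ((Real.log X) ^ (D + 1)) ∧
      |(w.2 : ℝ)| ≤ Real.exp ((Real.log X) ^ (D + 1)) ∧ Real.sqrt (Real.log X) ≤ H w) →
    ∀ 𝓛 : Finset (ℕ × ℤ),
    (∀ x ∈ 𝓛, 1 ≤ x.1 ∧ (x.1 : ℝ) ≤ Real.exp ((Real.log X) ^ (D + 1)) ∧
      |(x.2 : ℝ)| ≤ Real.exp ((Real.log X) ^ (D + 1))) →
    ∑ w ∈ 𝓦, H w + ∑ x ∈ 𝓛, (x.1 : ℝ) / (Nat.totient x.1 : ℝ) ≤ c * g X →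
    ∀ z : ℤ, ∃ n : ℤ, (z : ℝ) + X / 4 < n ∧ (n : ℝ) ≤ z + X ∧
      (∀ α ∈ 𝒜, ∀ j : ℤ, |(j : ℝ)| ≤ K α → ¬ ((α : ℤ) * n + j).natAbs.Prime) ∧
      (∀ w ∈ 𝓦, ∀ j : ℤ, |(j : ℝ)| ≤ H w → ¬ ((w.1 : ℤ) * n + (w.2 + j)).natAbs.Prime) ∧
      ∀ x ∈ 𝓛, ¬ ((x.1 : ℤ) * n + x.2).natAbs.Prime := by
  obtain ⟨c₁, hc₁, X₁, h1⟩ := Pool.Agent.Helper123.SM.multS2 D
  refine ⟨c₁, hc₁, X₁, fun X hX 𝒜 K h𝒜 hK 𝓦 H h𝓦 𝓛 h𝓛 hL z => ?_⟩
  have hF : Pool.Agent.H361R2.PA.FF 1 X = f X := by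
    unfold Pool.Agent.H361R2.PA.FF f
    rw [pow_one]
  have hlog : ∀ α : ℕ, 1 ≤ α → (α : ℝ) ≤ Real.exp ((Real.log X) ^ (D + 1)) →
      Real.log α ≤ (Real.log X) ^ (D + 1) := by
    intro α hα1 hα
    have hα0 : (0 : ℝ) < α := by exact_mod_cast hα1
    rw [← Real.log_exp ((Real.log X) ^ (D + 1))]
    exact Real.log_le_log hα0 hα
  obtain ⟨n, e1, e2, e3, e4, e5⟩ := h1 X hX 𝒜 K
    (fun α hα => ⟨(h𝒜 α hα).1, hlog α (h𝒜 α hα).1 (h𝒜 α hα).2.1, (h𝒜 α hα).2.2⟩)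
    (by rw [hF]; exact hK) 𝓦 H
    (fun w hw => ⟨(h𝓦 w hw).1, hlog w.1 (h𝓦 w hw).1 (h𝓦 w hw).2.1, (h𝓦 w hw).2.2⟩) 𝓛
    (fun x hx => ⟨(h𝓛 x hx).1, hlog x.1 (h𝓛 x hx).1 (h𝓛 x hx).2.1, (h𝓛 x hx).2.2⟩) hL z
  exact ⟨n, e1, e2, fun α hα j hj hp => e3 α hα j hj (Int.prime_iff_natAbs_prime.2 hp),
    fun w hw j hj hp => e4 w hw j hj (Int.prime_iff_natAbs_prime.2 hp),
    fun x hx hp => e5 x hx (Int.prime_iff_natAbs_prime.2 hp)⟩

end Pool.Agent.Results.MP_f9960f_nt.SimultaneousMultiples
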