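import Mathlib
import Pool.Agent.helper825_SB.Main

set_option autoImplicit false

/-!
# Record prime gaps around sums of two squares (and of two powers) in short intervals

Let `f(M) = log M (log₂ M)² log₄ M / (log₃ M)²` (iterated natural logarithms), the size of the largest gaps
between consecutive primes produced by the starting files.

Every interval `(M, M + C M^(1/4)]` contains a sum of two squares (Bambah and Chowla 1947; nothing better than
the exponent `1/4` of the greedy algorithm is known). We show that every interval `(M, M + M^(1/4 + ε)]`, `M` large,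
contains a sum of two positive squares in the middle of a prime gap of record size: every integer within `κ f(M)`
of it has a prime factor `≤ M^ε`. More generally this holds for `x ^ a + β y ^ b`, `x, y ≥ 1`, and the intervals
`(M, M + M^((1 - 1/a)(1 - 1/b) + ε)]`, all `a, b, β ≥ 1`; again the exponent is that of the greedy algorithm, which is
the best known one for a general interval if `a = b`.

Method. The starting file `MP_3bc45c_nt.SumsOfTwoPowers` (helper837; covering sieve of helper256, helper378 and
teams) finds `(x, y)` in every square of side `Z`; since `x ^ 2` varies by `Z √M` there, this gives sums of two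
squares only in intervals of length `M^(1/2 + ε)`. We carry the covering theorem over from boxes to arbitrary finite
sets of integer points which are equidistributed modulo all integers up to `Z` (`helper825_SB.mcovS`, `gen0S`), and
apply it to the sheared boxes `{(x, y) : U - Z³ < x ≤ U, s(x) < y ≤ s(x) + Z³}`, where `s` is an ARBITRARY function:
for every `x` the window for `y` is placed at the point of the curve `x ^ a + β y ^ b = M`.
-/

namespace Pool.Agent.Results.MP_f9960f_nt.SumsOfPowersInShortIntervals

/-- The record scale `f(x) = log x (log₂ x)² log₄ x / (log₃ x)²` (iterated natural logarithms). -/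
noncomputable def f (x : ℝ) : ℝ :=
  Real.log x * (Real.log (Real.log x)) ^ 2 * Real.log (Real.log (Real.log (Real.log x))) /
    (Real.log (Real.log (Real.log x))) ^ 2

/-- For all integers `a, b, β ≥ 1` and all `ε > 0` there are `κ > 0` and `M₀` such that for every `M ≥ M₀` there are
integers `x, y ≥ 1` with `M < x ^ a + β y ^ b ≤ M + M ^ ((1 - 1/a) (1 - 1/b) + ε)` such that no natural number `m` at
distance at most `κ f(M)` from `x ^ a + β y ^ b` is a prime; moreover each such `m` has a prime factor `≤ M ^ ε`. -/
theorem result (a b β : ℕ) (ha : 1 ≤ a) (hb : 1 ≤ b) (hβ : 1 ≤ β) (ε : ℝ) (hε : 0 < ε) :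
    ∃ κ : ℝ, 0 < κ ∧ ∃ M₀ : ℕ, ∀ M : ℕ, M₀ ≤ M → ∃ x y : ℕ, 1 ≤ x ∧ 1 ≤ y ∧
      M < x ^ a + β * y ^ b ∧
      ((x ^ a + β * y ^ b : ℕ) : ℝ) ≤
        M + (M : ℝ) ^ ((1 - 1 / (a : ℝ)) * (1 - 1 / (b : ℝ)) + ε) ∧
      ∀ m : ℕ, |(m : ℝ) - ((x ^ a + β * y ^ b : ℕ) : ℝ)| ≤ κ * f M →
        ¬ m.Prime ∧ ∃ p : ℕ, p.Prime ∧ (p : ℝ) ≤ (M : ℝ) ^ ε ∧ p ∣ m :=
  Pool.Agent.helper825_SB.main a b β ha hb hβ ε hε

end Pool.Agent.Results.MP_f9960f_nt.SumsOfPowersInShortIntervals
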